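import Pool.Agent.H78.Cyc3

open Pool.Agent.H78.Cyc3

theorem Pool.Agent.Results.MP_68eb4a_lc.NotEquiv.result (t : ℕ) (ht : 3 ≤ t)
    (F : Type) [Field F] [Fintype F] [Algebra (ZMod 2) F]
    (hF : Fintype.card F = 2 ^ (2 * t + 1)) (α : F) (hα : orderOf α = 2 ^ (2 * t + 1) - 1) :
    ¬ Equivalent
      (cyclicCode (2 ^ (2 * t + 1) - 1) (minpoly (ZMod 2) α *
        minpoly (ZMod 2) (α ^ (1 + 2 ^ (t - 1))) * minpoly (ZMod 2) (α ^ (1 + 2 ^ t))))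
      (cyclicCode (2 ^ (2 * t + 1) - 1) (minpoly (ZMod 2) α *
        minpoly (ZMod 2) (α ^ 3) * minpoly (ZMod 2) (α ^ 5))) :=
  main t ht hα
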